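import Mathlib

set_option autoImplicit false

open MeasureTheory Metric
open scoped InnerProductSpace RealInnerProductSpace

namespace Pool.Agent.MP_0643f8_an

universe u

variable {F : Type u} [NormedAddCommGroup F] [InnerProductSpace ℝ F] [FiniteDimensional ℝ F]

/-- divergence -/
noncomputable def divg (u : F → F) (x : F) : ℝ :=
  ∑ i, ⟪stdOrthonormalBasis ℝ F i, fderiv ℝ u x (stdOrthonormalBasis ℝ F i)⟫_ℝ

/-- Laplacian of a vector field -/
noncomputable def lapl (u : F → F) (x : F) : F :=
  ∑ i, fderiv ℝ (fun y => fderiv ℝ u y (stdOrthonormalBasis ℝ F i)) x (stdOrthonormalBasis ℝ F i)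

/-- the gradient of the divergence -/
noncomputable def gradDiv (u : F → F) (x : F) : F :=
  ∑ i, (fderiv ℝ (divg u) x (stdOrthonormalBasis ℝ F i)) • stdOrthonormalBasis ℝ F i

/-- the Lame operator `μ Δu + (λ + μ) ∇ (∇ · u)` -/
noncomputable def lame (lam mu : ℝ) (u : F → F) (x : F) : F :=
  mu • lapl u x + (lam + mu) • gradDiv u x

/-- the conormal derivative `λ (∇ · u) N + μ (∇u + ∇uᵀ) N` at `x` for the normal `N`; here
`∇uᵀ N = ∑ i, ⟪∂_i u, N⟫ e_i` -/
noncomputable def conormal (lam mu : ℝ) (u : F → F) (x N : F) : F :=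
  (lam * divg u x) • N + mu • (fderiv ℝ u x N +
    ∑ i, ⟪fderiv ℝ u x (stdOrthonormalBasis ℝ F i), N⟫_ℝ • stdOrthonormalBasis ℝ F i)

variable [MeasurableSpace F] [BorelSpace F]

/-- `f` (on the unit sphere, with its surface measure) is in `L²` and orthogonal to all rigid
displacements `x ↦ A x + b`, `A` antisymmetric. -/
def IsL2Psi (f : F → F) : Prop :=
  MemLp (fun x : sphere (0 : F) 1 => f x) 2 (volume : Measure F).toSphere ∧
    ∀ (A : F →L[ℝ] F) (b : F), (∀ x y, ⟪A x, y⟫_ℝ = - ⟪x, A y⟫_ℝ) →
      ∫ x : sphere (0 : F) 1, ⟪f x, A x + b⟫_ℝ ∂(volume : Measure F).toSphere = 0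

/-- `f` is not almost everywhere zero on the unit sphere. -/
def IsNonzero (f : F → F) : Prop :=
  ¬ ∀ᵐ x : sphere (0 : F) 1 ∂(volume : Measure F).toSphere, f x = 0

/-- Classical solution of the transmission problem in the unit ball `Ω`, with inclusion the ball
`D` of centre `c` and radius `r`: background constants `lam, mu`, inclusion constants
`lam', mu'`, Neumann datum `g`. The field `u` is the restriction of a smooth field `ui` to the
closed ball `D` and of a smooth field `ue` to the rest of the closed unit ball (so it is continuous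
across `∂D`). -/
structure IsSolution (c : F) (r lam mu lam' mu' : ℝ) (g u ui ue : F → F) : Prop where
  smooth_i : ContDiff ℝ ⊤ ui
  smooth_e : ContDiff ℝ ⊤ ue
  eq_i : ∀ x ∈ closedBall c r, u x = ui x
  eq_e : ∀ x ∈ closedBall (0 : F) 1, x ∉ ball c r → u x = ue x
  lame_i : ∀ x ∈ ball c r, lame lam' mu' ui x = 0
  lame_e : ∀ x ∈ ball (0 : F) 1, x ∉ closedBall c r → lame lam mu ue x = 0
  transmission : ∀ x ∈ sphere c r,
    conormal lam' mu' ui x (r⁻¹ • (x - c)) = conormal lam mu ue x (r⁻¹ • (x - c))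
  neumann : ∀ x ∈ sphere (0 : F) 1, conormal lam mu ue x x = g x
  normalised : IsL2Psi u

/-- One Neumann datum `g` that distinguishes no two balls: `g` is a nonzero element of `L²_Ψ` and
there is one field `u` that solves the transmission problem for `g` whatever the inclusion ball
`D` with closure inside `Ω` is. -/
def NoBallIsDetermined (F : Type u) [NormedAddCommGroup F] [InnerProductSpace ℝ F]
    [FiniteDimensional ℝ F] [MeasurableSpace F] [BorelSpace F] (lam mu lam' mu' : ℝ) : Prop :=
  ∃ g : F → F, IsL2Psi g ∧ IsNonzero g ∧ ∃ u : F → F, ∀ (c : F) (r : ℝ), 0 < r →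
    closedBall c r ⊆ ball 0 1 → ∃ ui ue : F → F, IsSolution c r lam mu lam' mu' g u ui ue

end Pool.Agent.MP_0643f8_an
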