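import Mathlib
import Pool.Agent.Lib.MP_0643f8_an.Defs

set_option autoImplicit false
set_option maxHeartbeats 4000000

open MeasureTheory Metric
open scoped InnerProductSpace RealInnerProductSpace Pointwise

namespace Pool.Agent.MP_0643f8_an

universe u

variable {F : Type u} [NormedAddCommGroup F] [InnerProductSpace ℝ F] [FiniteDimensional ℝ F]

/-- the orthonormal basis -/
noncomputable abbrev bv (i : Fin (Module.finrank ℝ F)) : F := stdOrthonormalBasis ℝ F i

lemma inner_bv (i j : Fin (Module.finrank ℝ F)) :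
    ⟪(bv i : F), bv j⟫_ℝ = if i = j then 1 else 0 := by
  have := (orthonormal_iff_ite.mp (stdOrthonormalBasis ℝ F).orthonormal) i j
  simpa [bv] using this

/-- the linear isometry of reflecting one coordinate -/
noncomputable def refl (i : Fin (Module.finrank ℝ F)) : F ≃ₗᵢ[ℝ] F := (ℝ ∙ (bv i : F))ᗮ.reflection

lemma inner_refl (i j : Fin (Module.finrank ℝ F)) (x : F) :
    ⟪(bv j : F), refl i x⟫_ℝ = if j = i then - ⟪(bv j : F), x⟫_ℝ else ⟪(bv j : F), x⟫_ℝ := by
  rw [refl, Submodule.reflection_orthogonal_apply, Submodule.reflection_singleton_apply]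
  have h1 : ‖(bv i : F)‖ = 1 := by simp [bv]
  rw [inner_neg_right, inner_sub_right, two_smul, inner_add_right, inner_smul_right, inner_bv, h1]
  split_ifs with h
  · subst h; simp
  · simp

/-- a linear isometry acts on the unit sphere -/
noncomputable def onSphere (f : F ≃ₗᵢ[ℝ] F) (x : sphere (0 : F) 1) : sphere (0 : F) 1 :=
  ⟨f x, by simp⟩

section

variable [MeasurableSpace F] [BorelSpace F]

lemma measurePreserving_onSphere (f : F ≃ₗᵢ[ℝ] F) :
    MeasurePreserving (onSphere f) (volume : Measure F).toSphere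
      (volume : Measure F).toSphere := by
  have hc : Continuous (onSphere f) :=
    Continuous.subtype_mk (f.continuous.comp continuous_subtype_val) _
  refine ⟨hc.measurable, ?_⟩
  ext s hs
  rw [Measure.map_apply hc.measurable hs, Measure.toSphere_apply' _ (hc.measurable hs),
    Measure.toSphere_apply' _ hs]
  congr 1
  have : Set.Ioo (0 : ℝ) 1 • ((↑) '' (onSphere f ⁻¹' s) : Set F)
      = f ⁻¹' (Set.Ioo (0 : ℝ) 1 • ((↑) '' s : Set F)) := by
    ext x
    simp only [Set.mem_smul, Set.mem_image, Set.mem_preimage]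
    constructor
    · rintro ⟨t, ht, y, ⟨z, hz, rfl⟩, rfl⟩
      exact ⟨t, ht, f z, ⟨onSphere f z, hz, rfl⟩, by simp⟩
    · rintro ⟨t, ht, y, ⟨z, hz, rfl⟩, h⟩
      refine ⟨t, ht, f.symm z, ⟨onSphere f.symm z, ?_, rfl⟩, ?_⟩
      · have : onSphere f (onSphere f.symm z) = z := by
          apply Subtype.ext; simp [onSphere]
        rw [this]; exact hz
      · rw [← f.symm.map_smul, h]; simp
  rw [this]
  exact (f.measurePreserving).measure_preimage_emb f.toHomeomorph.measurableEmbedding _

end

/-- the symmetric trace-free matrix `diag (1, -1, 0, ..)` as an operator -/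
noncomputable def S (i j : Fin (Module.finrank ℝ F)) : F →L[ℝ] F :=
  InnerProductSpace.rankOne ℝ (bv i) (bv i) - InnerProductSpace.rankOne ℝ (bv j) (bv j)

lemma S_apply (i j : Fin (Module.finrank ℝ F)) (x : F) :
    S i j x = ⟪(bv i : F), x⟫_ℝ • bv i - ⟪(bv j : F), x⟫_ℝ • bv j := by
  simp [S]

lemma S_symm (i j : Fin (Module.finrank ℝ F)) (x y : F) : ⟪S i j x, y⟫_ℝ = ⟪x, S i j y⟫_ℝ := by
  rw [S_apply, S_apply, inner_sub_left, inner_sub_right, real_inner_smul_left,
    real_inner_smul_left, real_inner_smul_right, real_inner_smul_right,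
    real_inner_comm x, real_inner_comm x]
  ring

lemma fderiv_S (i j : Fin (Module.finrank ℝ F)) (x : F) :
    fderiv ℝ (fun y => S i j y) x = S i j :=
  (S i j).fderiv

lemma divg_S (i j : Fin (Module.finrank ℝ F)) (x : F) : divg (fun y => S i j y) x = 0 := by
  rw [divg]
  have h3 : ∀ k : Fin (Module.finrank ℝ F), ⟪(bv k : F), fderiv ℝ (fun y => S i j y) x (bv k)⟫_ℝ
      = (if i = k then 1 else 0) - (if j = k then 1 else 0) := by
    intro k
    rw [fderiv_S, S_apply, inner_sub_right, inner_smul_right, inner_smul_right, inner_bv, inner_bv,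
      inner_bv, inner_bv]
    simp only [eq_comm (a := k)]
    split_ifs <;> simp
  simp only [bv] at h3
  simp_rw [h3]
  rw [Finset.sum_sub_distrib]
  simp

lemma lapl_S (i j : Fin (Module.finrank ℝ F)) (x : F) : lapl (fun y => S i j y) x = 0 := by
  simp only [lapl, fderiv_S]
  simp

lemma lame_S (i j : Fin (Module.finrank ℝ F)) (lam mu : ℝ) (x : F) :
    lame lam mu (fun y => S i j y) x = 0 := by
  have h : divg (fun y => S i j y) = fun _ : F => (0 : ℝ) := funext fun x => divg_S i j x
  rw [lame, lapl_S, gradDiv, h]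
  simp

lemma conormal_S (i j : Fin (Module.finrank ℝ F)) (lam mu : ℝ) (x N : F) :
    conormal lam mu (fun y => S i j y) x N = (2 * mu) • S i j N := by
  rw [conormal, divg_S, fderiv_S]
  have h : ∑ k, ⟪S i j (stdOrthonormalBasis ℝ F k), N⟫_ℝ • stdOrthonormalBasis ℝ F k
      = S i j N := by
    simp_rw [S_symm]
    exact (stdOrthonormalBasis ℝ F).sum_repr' (S i j N)
  rw [h]
  module

lemma contDiff_S (i j : Fin (Module.finrank ℝ F)) : ContDiff ℝ ⊤ (fun x : F => S i j x) :=
  (S i j).contDiff

variable [MeasurableSpace F] [BorelSpace F]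

lemma S_isL2Psi (i j : Fin (Module.finrank ℝ F)) : IsL2Psi (fun x : F => S i j x) := by
  constructor
  · have hc : Continuous (fun x : sphere (0 : F) 1 => S i j x) :=
      (S i j).continuous.comp continuous_subtype_val
    obtain ⟨C, hC⟩ : ∃ C, ∀ x : sphere (0 : F) 1, ‖S i j x‖ ≤ C :=
      ⟨‖S i j‖, fun x => by simpa using (S i j).le_opNorm (x : F)⟩
    exact MemLp.of_bound hc.aestronglyMeasurable C (Filter.Eventually.of_forall hC)
  · intro A b hA
    -- integrals of coordinate functions
    set σ := (volume : Measure F).toSphere with hσ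
    have hint : ∀ G : sphere (0 : F) 1 → ℝ, Continuous G → Integrable G σ := by
      intro G hG
      obtain ⟨C, hC⟩ := (isCompact_univ (X := sphere (0 : F) 1)).exists_bound_of_continuousOn
        hG.continuousOn
      exact (MemLp.of_bound hG.aestronglyMeasurable C
        (Filter.Eventually.of_forall fun x => hC x trivial)).integrable (q := 1) le_rfl
    have hco : ∀ k : Fin (Module.finrank ℝ F),
        Continuous fun x : sphere (0 : F) 1 => ⟪(bv k : F), (x : F)⟫_ℝ := by
      intro k
      fun_prop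
    have hinv : ∀ (k : Fin (Module.finrank ℝ F)) (G : sphere (0 : F) 1 → ℝ), Continuous G →
        ∫ x, G x ∂σ = ∫ x, G (onSphere (refl k) x) ∂σ := by
      intro k G hG
      have hmp := measurePreserving_onSphere (F := F) (refl k)
      have h := integral_map (μ := σ) (φ := onSphere (refl k)) hmp.measurable.aemeasurable
        (f := G) hG.aestronglyMeasurable
      rw [hmp.map_eq] at h
      exact h
    have hlin : ∀ k : Fin (Module.finrank ℝ F),
        ∫ x : sphere (0 : F) 1, ⟪(bv k : F), (x : F)⟫_ℝ ∂σ = 0 := by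
      intro k
      have h := hinv k _ (hco k)
      have h2 : ∀ x : sphere (0 : F) 1, ⟪(bv k : F), (onSphere (refl k) x : F)⟫_ℝ
          = - ⟪(bv k : F), (x : F)⟫_ℝ := by
        intro x
        change ⟪(bv k : F), refl k (x : F)⟫_ℝ = _
        rw [inner_refl, if_pos rfl]
      simp_rw [h2] at h
      rw [integral_neg] at h
      linarith
    have hquad : ∀ k l : Fin (Module.finrank ℝ F), k ≠ l →
        ∫ x : sphere (0 : F) 1, ⟪(bv k : F), (x : F)⟫_ℝ * ⟪(bv l : F), (x : F)⟫_ℝ ∂σ = 0 := by
      intro k l hkl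
      have h := hinv k (fun x : sphere (0 : F) 1 =>
        ⟪(bv k : F), (x : F)⟫_ℝ * ⟪(bv l : F), (x : F)⟫_ℝ) ((hco k).mul (hco l))
      have h2 : ∀ x : sphere (0 : F) 1, ⟪(bv k : F), (onSphere (refl k) x : F)⟫_ℝ
          = - ⟪(bv k : F), (x : F)⟫_ℝ := by
        intro x
        change ⟪(bv k : F), refl k (x : F)⟫_ℝ = _
        rw [inner_refl, if_pos rfl]
      have h3 : ∀ x : sphere (0 : F) 1, ⟪(bv l : F), (onSphere (refl k) x : F)⟫_ℝ
          = ⟪(bv l : F), (x : F)⟫_ℝ := by
        intro x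
        change ⟪(bv l : F), refl k (x : F)⟫_ℝ = _
        rw [inner_refl, if_neg hkl.symm]
      simp_rw [h2, h3, neg_mul] at h
      rw [integral_neg] at h
      linarith
    have hsum : ∀ (k : Fin (Module.finrank ℝ F)) (y : F),
        ⟪(bv k : F), A y⟫_ℝ = ∑ l, ⟪(bv k : F), A (bv l)⟫_ℝ * ⟪(bv l : F), y⟫_ℝ := by
      intro k y
      have hy : y = ∑ l, ⟪(bv l : F), y⟫_ℝ • (bv l : F) :=
        ((stdOrthonormalBasis ℝ F).sum_repr' y).symm
      conv_lhs => rw [hy]
      rw [map_sum, inner_sum]
      refine Finset.sum_congr rfl fun l _ => ?_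
      rw [map_smul, inner_smul_right, mul_comm]
    have hdiag : ∀ k : Fin (Module.finrank ℝ F), ⟪(bv k : F), A (bv k)⟫_ℝ = 0 := by
      intro k
      have := hA (bv k) (bv k)
      rw [real_inner_comm] at this
      linarith
    have hterm : ∀ k : Fin (Module.finrank ℝ F),
        ∫ x : sphere (0 : F) 1, ⟪(bv k : F), (x : F)⟫_ℝ * ⟪(bv k : F), A x + b⟫_ℝ ∂σ = 0 := by
      intro k
      have h1 : ∀ x : sphere (0 : F) 1, ⟪(bv k : F), (x : F)⟫_ℝ * ⟪(bv k : F), A x + b⟫_ℝ
          = (∑ l, ⟪(bv k : F), A (bv l)⟫_ℝ * (⟪(bv k : F), (x : F)⟫_ℝ * ⟪(bv l : F), (x : F)⟫_ℝ))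
            + ⟪(bv k : F), b⟫_ℝ * ⟪(bv k : F), (x : F)⟫_ℝ := by
        intro x
        rw [inner_add_right, hsum, mul_add, Finset.mul_sum]
        congr 1
        · exact Finset.sum_congr rfl fun l _ => by ring
        · ring
      simp_rw [h1]
      have hI : ∀ l : Fin (Module.finrank ℝ F), Integrable (fun x : sphere (0 : F) 1 =>
          ⟪(bv k : F), A (bv l)⟫_ℝ *
            (⟪(bv k : F), (x : F)⟫_ℝ * ⟪(bv l : F), (x : F)⟫_ℝ)) σ := fun l =>
        (hint _ ((hco k).mul (hco l))).const_mul _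
      rw [integral_add (integrable_finsetSum _ fun l _ => hI l) ((hint _ (hco k)).const_mul _),
        integral_finsetSum _ fun l _ => hI l, integral_const_mul, hlin]
      rw [mul_zero, add_zero]
      refine Finset.sum_eq_zero fun l _ => ?_
      rw [integral_const_mul]
      by_cases hkl : k = l
      · subst hkl; rw [hdiag, zero_mul]
      · rw [hquad k l hkl, mul_zero]
    have hIt : ∀ k : Fin (Module.finrank ℝ F), Integrable (fun x : sphere (0 : F) 1 =>
        ⟪(bv k : F), (x : F)⟫_ℝ * ⟪(bv k : F), A x + b⟫_ℝ) σ := by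
      intro k
      apply hint
      fun_prop
    have h0 : ∀ x : sphere (0 : F) 1, ⟪S i j (x : F), A x + b⟫_ℝ
        = ⟪(bv i : F), (x : F)⟫_ℝ * ⟪(bv i : F), A x + b⟫_ℝ
          - ⟪(bv j : F), (x : F)⟫_ℝ * ⟪(bv j : F), A x + b⟫_ℝ := by
      intro x
      rw [S_apply, inner_sub_left, real_inner_smul_left, real_inner_smul_left]
    simp_rw [h0]
    rw [integral_sub (hIt i) (hIt j), hterm, hterm, sub_zero]

theorem main (h2 : 2 ≤ Module.finrank ℝ F) (lam mu lam' : ℝ) (hmu : 0 < mu) :
    NoBallIsDetermined F lam mu lam' mu := by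
  let i : Fin (Module.finrank ℝ F) := ⟨0, by omega⟩
  let j : Fin (Module.finrank ℝ F) := ⟨1, by omega⟩
  have hij : i ≠ j := by
    intro h
    have := congrArg Fin.val h
    simp [i, j] at this
  refine ⟨fun x => (2 * mu) • S i j x, ?_, ?_, fun x => S i j x, ?_⟩
  · obtain ⟨h1, h2⟩ := S_isL2Psi (F := F) i j
    refine ⟨h1.const_smul (2 * mu), fun A b hA => ?_⟩
    have h3 := h2 A b hA
    simp_rw [real_inner_smul_left]
    rw [integral_const_mul, h3, mul_zero]
  · intro h
    have hc : Continuous (fun x : sphere (0 : F) 1 => (2 * mu) • S i j (x : F)) := by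
      fun_prop
    have h0 : (fun x : sphere (0 : F) 1 => (2 * mu) • S i j (x : F)) = fun _ => 0 :=
      (Continuous.ae_eq_iff_eq (volume : Measure F).toSphere hc continuous_const).mp h
    have h4 := congrFun h0 ⟨bv i, by simp [bv]⟩
    simp only [S_apply] at h4
    have h5 := congrArg (fun y : F => ⟪(bv i : F), y⟫_ℝ) h4
    simp only [inner_smul_right, inner_sub_right, inner_bv, inner_zero_right] at h5
    simp [hij, hij.symm] at h5
    linarith
  · intro c r hr hsub
    refine ⟨fun x => S i j x, fun x => S i j x, ⟨contDiff_S i j, contDiff_S i j, fun _ _ => rfl,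
      fun _ _ _ => rfl, fun x _ => lame_S i j _ _ x, fun x _ _ => lame_S i j _ _ x, fun x _ => ?_,
      fun x _ => conormal_S i j _ _ x x, S_isL2Psi i j⟩⟩
    rw [conormal_S, conormal_S]

end Pool.Agent.MP_0643f8_an
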