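import Mathlib
import Pool.Agent.Lib.MP_0643f8_an.Defs
import Pool.Agent.Lib.MP_0643f8_an.Proof

set_option autoImplicit false

universe u

namespace Pool.Agent.Results.MP_0643f8_an.EqualShearModuli

theorem result (F : Type u) [NormedAddCommGroup F] [InnerProductSpace ℝ F] [FiniteDimensional ℝ F]
    [MeasurableSpace F] [BorelSpace F] (d : ℕ) (hd : d = 2 ∨ d = 3) (hF : Module.finrank ℝ F = d)
    (lam mu lam' mu' : ℝ) (hmu : 0 < mu) (_hlam : 0 < d * lam + 2 * mu) (_hlam' : 0 < lam')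
    (_hmu' : 0 < mu') (_hne : (lam', mu') ≠ (lam, mu))
    (_hsign : 0 ≤ (lam - lam') * (mu - mu')) (heq : mu' = mu) :
    Pool.Agent.MP_0643f8_an.NoBallIsDetermined F lam mu lam' mu' := by
  subst heq
  exact Pool.Agent.MP_0643f8_an.main (by omega) lam mu' lam' hmu

end Pool.Agent.Results.MP_0643f8_an.EqualShearModuli
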